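import Pool.Agent.BBR.Main

set_option autoImplicit false

/-!
# Characteristic and minimal polynomials of small matrices in bit models

The entries of the matrices are natural numbers with `N` bits. The coefficients of the characteristic
polynomial, and for `2 × 2` matrices also those of the minimal polynomial, are computed in the
models below, while the coefficient of `x ^ 3` of the minimal polynomial of an `n × n` matrix,
`n ≥ 3`, is not computed by functions which inspect few bits individually, by circuits of constant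
product depth and subexponential size, or by oblivious branching programs which read every bit few
times.
-/

open Pool.Agent.BBR

theorem Pool.Agent.Results.MP_80b7d7_lc.BitBarrier.result :
    (∀ n N i : ℕ, (fun b : Bits n N => (mat b).charpoly.coeff i) ∈ Inputs n N (n + 1) 0) ∧
    (∀ N i : ℕ, Comp (Inputs 2 N 3 2) 2 2 (mu i : Bits 2 N → ℤ)) ∧
    (∀ n N r : ℕ, 3 ≤ n → ∀ f ∈ Inputs n N (2 ^ (N / 2)) r, (∀ b, f b ≡ mu 3 b [ZMOD 2]) →
      N ≤ 16 * (r + 2) ^ 2) ∧
    (∀ n N r S d l : ℕ, 3 ≤ n → N * S ≤ 2 ^ l → ∀ f, Comp (Inputs n N (2 ^ (N / 2)) r) S d f →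
      (∀ b, f b ≡ mu 3 b [ZMOD 2]) → N ≤ 5000 * ((r + 1) * (l + 1) ^ d) ^ 4) ∧
    (∀ n N W k : ℕ, 3 ≤ n → ∀ (K : Type) [Field K] (P : Prog K (Var n N) W), P.ReadAtMost k →
      (∀ b : Bits n N, P.val (fun t => b t.1 t.2.1 t.2.2) = ((mu 3 b : ℤ) : K)) →
      2 ^ (N / (4 * 16 ^ k)) ≤ W ^ (2 * k + 2) + 1) :=
  main
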