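import Pool.Agent.MPC.Nxt
import Pool.Agent.MPC.Cls

set_option autoImplicit false

/-!
# Coefficients, constant terms and closures: minimal polynomials over rings of integer valued functions
-/

open Pool.Agent.MPN (MinPolyClosed ZeroInd minPolyClosed_iff)
open Pool.Agent.MPC

/-- (1) For a ring `R` of integer valued functions the following are equivalent: the coefficients of
the minimal polynomials of all square matrices over `R` are in `R`; their second coefficients are in
`R`; `R` contains the zero indicators of its elements and is integrally closed; `R` contains for each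
`f` a function vanishing exactly where `f` does not, and is integrally closed.
(2) If `R` is closed under binomial coefficients, the constant terms suffice, and `R` is integrally
closed in `R ⊗ ℚ`.  (3) Without binomial coefficients the constant terms do not suffice.
(4) The smallest ring which contains `R` and is closed under minimal polynomials. -/
theorem Pool.Agent.Results.MP_80b7d7_lc.ConstantTermCriterion.result :
    (∀ (X : Type) (R : Subring (X → ℤ)), List.TFAE [MinPolyClosed R, NextClosed R,
      ZeroInd R ∧ IsIntegrallyClosed R, CoZero R ∧ IsIntegrallyClosed R]) ∧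
    (∀ (X : Type) (R : Subring (X → ℤ)), BinClosed R →
      (MinPolyClosed R ↔ ConstClosed R) ∧ TorClosed R) ∧
    (∃ R : Subring (Bool → ℤ), ConstClosed R ∧ ¬ MinPolyClosed R) ∧
    (∀ (X : Type) (R : Subring (X → ℤ)), R ≤ mpc R ∧ MinPolyClosed (mpc R) ∧
      ∀ R' : Subring (X → ℤ), R ≤ R' → MinPolyClosed R' → mpc R ≤ R') := by
  refine ⟨fun X R => ?_, fun X R hB => ⟨minPolyClosed_iff_const hB, fun N y hN h hy => ?_⟩,
    const_not, fun X R => ⟨le_mpc, mpc_closed, fun R' h h' => mpc_le h h'⟩⟩
  · have h1 := minPolyClosed_iff_next (R := R)
    have h2 := minPolyClosed_iff R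
    tfae_have 1 ↔ 2 := h1
    tfae_have 1 ↔ 3 := h2
    tfae_have 3 ↔ 4 :=
      ⟨fun h => ⟨(coZero_iff h.2).1 h.1, h.2⟩, fun h => ⟨(coZero_iff h.2).2 h.1, h.2⟩⟩
    tfae_finish
  · refine mem_of_mul_mem hB hN hy ?_
    have h1 : ((N : ℤ) : X → ℤ) * y = fun x => (N : ℤ) * y x := by
      funext x
      simp
    rw [h1]
    exact h
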