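import Pool.Agent.MPN.BarC

set_option autoImplicit false

/-!
# The coefficient `m_1` of the minimal polynomial is not piecewise polynomial with few pieces
-/

open MvPolynomial

/-- Let `n ≥ 3`, `D ≥ 1` and let `Ps` be a finite set of polynomials of degree at most `D` in the
entries of an `n × n` matrix. Suppose that for every integer matrix `A` with entries in
`{0, ..., N}` whose minimal polynomial is `(x - a) (x - b)` with different integers `a`, `b`, at
least one of the polynomials takes at `A` the value `m_1(A)`, the coefficient of `x` of the minimal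
polynomial of `A`. Then `N < s ^ 2 + s` for `s = 2 * D * |Ps| + 1`. -/
theorem Pool.Agent.Results.MP_80b7d7_lc.PiecewiseBarrier.result
    {n : ℕ} (hn : 3 ≤ n) {N D : ℕ} (hD : 1 ≤ D)
    (Ps : Finset (MvPolynomial (Fin n × Fin n) ℂ)) (hdeg : ∀ P ∈ Ps, P.totalDegree ≤ D)
    (hcov : ∀ A : Matrix (Fin n) (Fin n) ℤ, (∀ i j, 0 ≤ A i j ∧ A i j ≤ N) →
      (∃ a b : ℤ, a ≠ b ∧ minpoly ℚ (A.map (Int.cast : ℤ → ℚ)) =
        (Polynomial.X - Polynomial.C (a : ℚ)) * (Polynomial.X - Polynomial.C (b : ℚ))) →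
      ∃ P ∈ Ps, eval (fun p : Fin n × Fin n => ((A p.1 p.2 : ℤ) : ℂ)) P =
        (((minpoly ℚ (A.map (Int.cast : ℤ → ℚ))).coeff 1 : ℚ) : ℂ)) :
    N < (2 * D * Ps.card + 1) ^ 2 + (2 * D * Ps.card + 1) :=
  Pool.Agent.MPN.barrier hn hD Ps hdeg hcov
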