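import Pool.Agent.MPU.Main

set_option autoImplicit false

/-!
# Minimal polynomials, greatest common divisors and Gauss' lemma in a class like `GapL`
-/

open Pool.Agent.MPU

/-- Let `𝓒` be a class of functions with the closure properties of `GapL` (`GapClass`). The following
are equivalent: the minimal polynomials of matrices of variable size whose entries are differences of
small numbers are in the class; the minimal polynomials of all matrices of variable size with entries
in the class are in the class; the greatest common divisors of two monic polynomials of variable
degree with coefficients in the class are in the class; the class contains the indicators of the zero
sets of its elements and satisfies Gauss' lemma. -/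
theorem Pool.Agent.Results.MP_80b7d7_lc.UniformCriterion.result (𝓒 : GapClass) :
    List.TFAE [MinPolyN 𝓒, MinPolyG 𝓒, GcdG 𝓒, ZeroG 𝓒 ∧ GaussG 𝓒] :=
  main 𝓒
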